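import Pool.Agent.Q37.Dim.HyperCI

/-!
# MP_3122b6_ag, Q1: complete intersection of hypergraph LSS ideals persists

For every field, every clutter `E` of nonempty subsets of `Fin n` and every `d ≥ 1`: if `L_E(d)` is
a complete intersection, then `L_E(d+1)` is a complete intersection, and it is even prime.
-/

set_option autoImplicit false

open MvPolynomial

namespace Pool.Agent.Results.MP_3122b6_ag.CompleteIntersection

/-- The polynomial `f_A^{(d)} = ∑_j ∏_{i ∈ A} y_{i,j}` in the variables `y_{i,j}`, `i < n`,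
`j < d`. -/
noncomputable def edgePoly (K : Type) [Field K] (n d : ℕ) (A : Finset (Fin n)) :
    MvPolynomial (Fin n × Fin d) K :=
  ∑ j : Fin d, ∏ i ∈ A, X (i, j)

/-- The hypergraph Lovász–Saks–Schrijver ideal `L_E(d)`. -/
noncomputable def LSS (K : Type) [Field K] {n : ℕ} (E : Finset (Finset (Fin n))) (d : ℕ) :
    Ideal (MvPolynomial (Fin n × Fin d) K) :=
  Ideal.span {f | ∃ A ∈ E, f = edgePoly K n d A}

/-- An ideal is a complete intersection if it is generated by a regular sequence. -/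
def IsCompleteIntersection {S : Type} [CommRing S] (L : Ideal S) : Prop :=
  ∃ rs : List S, RingTheory.Sequence.IsRegular S rs ∧ Ideal.ofList rs = L

lemma lss_eq (K : Type) [Field K] {n : ℕ} (E : Finset (Finset (Fin n))) (d : ℕ) :
    LSS K E d = Ideal.span (Set.range fun i : E => Q37.Hyp.ef K d (i : Finset (Fin n))) := by
  rw [LSS]
  congr 1
  ext f
  constructor
  · rintro ⟨A, hA, rfl⟩
    exact ⟨⟨A, hA⟩, rfl⟩
  · rintro ⟨⟨A, hA⟩, rfl⟩
    exact ⟨A, hA, rfl⟩

theorem result : ∀ (K : Type) [Field K] (n : ℕ) (E : Finset (Finset (Fin n))),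
    (∀ A ∈ E, A.Nonempty) → (∀ A ∈ E, ∀ B ∈ E, A ⊆ B → A = B) → ∀ d : ℕ, 1 ≤ d →
    IsCompleteIntersection (LSS K E d) →
      IsCompleteIntersection (LSS K E (d + 1)) ∧ (LSS K E (d + 1)).IsPrime := by
  intro K _ n E hne hcl d hd
  have he : Q37.Hyp.Cl (fun i : E => (i : Finset (Fin n))) :=
    ⟨fun i => hne i i.2, fun i j hij => Subtype.ext (hcl i i.2 j j.2 hij)⟩
  rw [lss_eq, lss_eq]
  intro h
  have h1 := Q37.Hyp.dm_of_ci he hd h
  exact ⟨Q37.Hyp.ci_of_dm he (Q37.Hyp.dm_succ he h1), Q37.Hyp.pr_succ he h1⟩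

end Pool.Agent.Results.MP_3122b6_ag.CompleteIntersection
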