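import Pool.Agent.Q37.Dim.HyperStep

/-!
# MP_3122b6_ag, Q2: primeness of hypergraph LSS ideals persists

For every field, every clutter `E` of nonempty subsets of `Fin n` and every `d ≥ 1`: if `L_E(d)` is
prime, then `L_E(d+1)` is prime.
-/

set_option autoImplicit false

open MvPolynomial

namespace Pool.Agent.Results.MP_3122b6_ag.Primality

/-- The polynomial `f_A^{(d)} = ∑_j ∏_{i ∈ A} y_{i,j}` in the variables `y_{i,j}`, `i < n`,
`j < d`. -/
noncomputable def edgePoly (K : Type) [Field K] (n d : ℕ) (A : Finset (Fin n)) :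
    MvPolynomial (Fin n × Fin d) K :=
  ∑ j : Fin d, ∏ i ∈ A, X (i, j)

/-- The hypergraph Lovász–Saks–Schrijver ideal `L_E(d)`. -/
noncomputable def LSS (K : Type) [Field K] {n : ℕ} (E : Finset (Finset (Fin n))) (d : ℕ) :
    Ideal (MvPolynomial (Fin n × Fin d) K) :=
  Ideal.span {f | ∃ A ∈ E, f = edgePoly K n d A}

lemma lss_eq (K : Type) [Field K] {n : ℕ} (E : Finset (Finset (Fin n))) (d : ℕ) :
    LSS K E d = Ideal.span (Set.range fun i : E => Q37.Hyp.ef K d (i : Finset (Fin n))) := by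
  rw [LSS]
  congr 1
  ext f
  constructor
  · rintro ⟨A, hA, rfl⟩
    exact ⟨⟨A, hA⟩, rfl⟩
  · rintro ⟨⟨A, hA⟩, rfl⟩
    exact ⟨A, hA, rfl⟩

theorem result : ∀ (K : Type) [Field K] (n : ℕ) (E : Finset (Finset (Fin n))),
    (∀ A ∈ E, A.Nonempty) → (∀ A ∈ E, ∀ B ∈ E, A ⊆ B → A = B) → ∀ d : ℕ, 1 ≤ d →
    (LSS K E d).IsPrime → (LSS K E (d + 1)).IsPrime := by
  intro K _ n E hne hcl d hd
  have he : Q37.Hyp.Cl (fun i : E => (i : Finset (Fin n))) :=
    ⟨fun i => hne i i.2, fun i j hij => Subtype.ext (hcl i i.2 j j.2 hij)⟩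
  rw [lss_eq, lss_eq]
  exact Q37.Hyp.pr_of_pr hd he

end Pool.Agent.Results.MP_3122b6_ag.Primality
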